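import Mathlib
import Pool.Agent.Helper259.HtDef
import Pool.Agent.Helper259.Uniform

set_option autoImplicit false

namespace Pool.Agent.Results.MP_216eb3_nt.OrbitHeights

open Pool.Agent.Helper259.AbsHt

/-- The `Qbar`-points of projective `n`-space. -/
abbrev PSpace (n : ℕ) : Type := Projectivization Qbar (Fin (n + 1) → Qbar)

/-- Absolute logarithmic Weil height of a point of projective space. -/
noncomputable def ht {n : ℕ} (P : PSpace n) : ℝ := absLogHeight P.rep

/-- `X` is (the set of points of) a quasi-projective variety in projective `n`-space: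
the common zeros of the homogeneous polynomials in `S` at which some polynomial of `T`
does not vanish. -/
def IsQuasiProjective {n : ℕ} (X : Set (PSpace n)) : Prop :=
  ∃ S T : Set (MvPolynomial (Fin (n + 1)) Qbar),
    (∀ F ∈ S ∪ T, ∃ d : ℕ, F.IsHomogeneous d) ∧
    X = {P : PSpace n | (∀ F ∈ S, MvPolynomial.eval P.rep F = 0) ∧
      ∃ G ∈ T, MvPolynomial.eval P.rep G ≠ 0}

/-- `π` is a morphism: around every point of `X` it is given by homogeneous polynomials of the
same degree, at all points of `X` where these polynomials do not all vanish. -/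
def IsMorphism {n m : ℕ} {X : Set (PSpace n)} {Y : Set (PSpace m)} (π : X → Y) : Prop :=
  ∀ P : X, ∃ (d : ℕ) (p : Fin (m + 1) → MvPolynomial (Fin (n + 1)) Qbar),
    (∀ j, (p j).IsHomogeneous d) ∧
    (fun j => MvPolynomial.eval P.1.rep (p j)) ≠ 0 ∧
    ∀ (Q : X) (hQ : (fun j => MvPolynomial.eval Q.1.rep (p j)) ≠ 0),
      (π Q).1 = Projectivization.mk Qbar (fun j => MvPolynomial.eval Q.1.rep (p j)) hQ

open Pool.Agent.Helper259.Uniform

lemma eval_smul {n : ℕ} {F : MvPolynomial (Fin (n + 1)) Qbar} {d : ℕ} (hF : F.IsHomogeneous d)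
    (c : Qbar) (x : Fin (n + 1) → Qbar) :
    MvPolynomial.eval (c • x) F = c ^ d * MvPolynomial.eval x F := by
  rw [MvPolynomial.eval_eq', MvPolynomial.eval_eq', Finset.mul_sum]
  refine Finset.sum_congr rfl fun s hs => ?_
  have hdeg : ∑ i, s i = d := by
    have h := hF (MvPolynomial.mem_support_iff.mp hs)
    have h2 : Finsupp.degree s = d := by
      rw [← h, Finsupp.degree_eq_weight_one]; rfl
    rw [← h2, Finsupp.degree_eq_sum]
  simp only [Pi.smul_apply, smul_eq_mul, mul_pow]
  rw [Finset.prod_mul_distrib, Finset.prod_pow_eq_pow_sum, hdeg]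
  ring

lemma ht_mk {n : ℕ} (x : Fin (n + 1) → Qbar) (hx : x ≠ 0) :
    ht (Projectivization.mk Qbar x hx : PSpace n) = absLogHeight x := by
  obtain ⟨a, ha⟩ := Projectivization.exists_smul_eq_mk_rep Qbar x hx
  rw [ht, ← ha]
  exact absLogHeight_smul x a.ne_zero

lemma ht_nonneg {n : ℕ} (P : PSpace n) : 0 ≤ ht P := absLogHeight_nonneg _

/-- a finite subset suffices -/
lemma finite_sub {n : ℕ} (S : Set (MvPolynomial (Fin (n + 1)) Qbar)) :
    ∃ S' : Finset (MvPolynomial (Fin (n + 1)) Qbar), (S' : Set _) ⊆ S ∧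
      ∀ x : Fin (n + 1) → Qbar, (∀ F ∈ S', MvPolynomial.eval x F = 0) →
        ∀ F ∈ S, MvPolynomial.eval x F = 0 := by
  obtain ⟨S', hS', hspan⟩ := (Submodule.fg_span_iff_fg_span_finset_subset
    (R := MvPolynomial (Fin (n + 1)) Qbar) S).mp (IsNoetherian.noetherian _)
  refine ⟨S', hS', fun x hx F hF => ?_⟩
  have h1 : F ∈ Ideal.span (S' : Set (MvPolynomial (Fin (n + 1)) Qbar)) := by
    have : F ∈ Submodule.span (MvPolynomial (Fin (n + 1)) Qbar) S := Submodule.subset_span hF
    rw [hspan] at this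
    exact this
  have h2 : Ideal.span (S' : Set (MvPolynomial (Fin (n + 1)) Qbar)) ≤
      RingHom.ker (MvPolynomial.eval x) := by
    rw [Ideal.span_le]
    intro G hG
    exact hx G hG
  exact h2 h1

/-- Let `X` and `Y` be quasi-projective varieties over `Qbar`, let the group `G` act on `X`, and
let `π : X → Y` be a surjective morphism whose fibres are exactly the orbits of `G`
(for instance a geometric quotient by an algebraic action). Then `h_Y (π x)` and the infimum of
`h_X` over the orbit of `x` bound each other linearly. -/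
theorem result {n m : ℕ} (X : Set (PSpace n)) (Y : Set (PSpace m))
    (hX : IsQuasiProjective X) (_hY : IsQuasiProjective Y)
    (G : Type*) [Group G] [MulAction G X] (π : X → Y) (hπ : IsMorphism π)
    (_hsurj : Function.Surjective π) (hfib : ∀ x x' : X, π x = π x' ↔ ∃ g : G, g • x = x') :
    ∃ c₁ c₂ c₃ c₄ : ℝ, 0 < c₁ ∧ 0 < c₂ ∧ ∀ x : X,
      c₁ * ht (π x).1 - c₃ ≤ ⨅ g : G, ht (g • x).1 ∧
      ⨅ g : G, ht (g • x).1 ≤ c₂ * ht (π x).1 + c₄ := by
  classical
  obtain ⟨S, T, hST, hXeq⟩ := hX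
  have hmemX : ∀ P : PSpace n, P ∈ X ↔ (∀ F ∈ S, MvPolynomial.eval P.rep F = 0) ∧
      ∃ G ∈ T, MvPolynomial.eval P.rep G ≠ 0 := fun P => Set.ext_iff.mp hXeq P
  clear hXeq
  -- finitely many local formulas for `π`
  choose d p hhom hne hform using hπ
  obtain ⟨W, hWsub, hW⟩ := finite_sub {q : MvPolynomial (Fin (n + 1)) Qbar | ∃ P j, q = p P j}
  have hWsub' : ∀ q : W, ∃ (P : X) (j : Fin (m + 1)), (q : MvPolynomial (Fin (n + 1)) Qbar) = p P j :=
    fun q => hWsub q.2
  choose PP jj hPP using hWsub'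
  -- every point of `X` lies in one of the finitely many charts
  have hcover : ∀ x : X, ∃ q : W, (fun j => MvPolynomial.eval x.1.rep (p (PP q) j)) ≠ 0 := by
    intro x
    by_contra hcon
    push Not at hcon
    have h1 : ∀ F ∈ W, MvPolynomial.eval x.1.rep F = 0 := by
      intro F hF
      have h2 := congrFun (hcon ⟨F, hF⟩) (jj ⟨F, hF⟩)
      have h3 := hPP ⟨F, hF⟩
      simp only at h3
      rw [h3]
      exact h2
    have h2 := hW x.1.rep h1
    apply hne x
    funext j
    exact h2 _ ⟨x, j, rfl⟩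
  -- first inequality
  choose A hA using fun q : W => absLogHeight_eval (d (PP q)) (p (PP q)) (hhom (PP q))
  set A' : ℝ := ∑ q : W, |A q| with hA'
  set D : ℝ := 1 + ∑ q : W, (d (PP q) : ℝ) with hD
  have hDpos : 0 < D := by
    have : (0 : ℝ) ≤ ∑ q : W, (d (PP q) : ℝ) := Finset.sum_nonneg fun q _ => Nat.cast_nonneg _
    rw [hD]; linarith
  have hup : ∀ x : X, ht (π x).1 ≤ A' + D * ht x.1 := by
    intro x
    obtain ⟨q, hq⟩ := hcover x
    rw [hform (PP q) x hq, ht_mk]
    refine (hA q x.1.rep).trans ?_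
    have h1 : A q ≤ A' := (le_abs_self _).trans
      (Finset.single_le_sum (f := fun q : W => |A q|) (fun q _ => abs_nonneg _) (Finset.mem_univ q))
    have h2 : (d (PP q) : ℝ) ≤ D := by
      have := Finset.single_le_sum (f := fun q : W => (d (PP q) : ℝ))
        (fun q _ => Nat.cast_nonneg _) (Finset.mem_univ q)
      rw [hD]; linarith
    have h3 := mul_le_mul_of_nonneg_right h2 (ht_nonneg x.1)
    have h4 : ht x.1 = absLogHeight x.1.rep := rfl
    rw [← h4]
    linarith
  -- finite sets of equations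
  obtain ⟨S', hS'sub, hS'⟩ := finite_sub S
  obtain ⟨T', hT'sub, hT'⟩ := finite_sub T
  -- the uniform bounds
  have huni := fun (q : W) (G : T') (i0 : Fin (m + 1)) (i1 : Fin (n + 1)) =>
    uniform (α := Fin (m + 1)) (β := Fin (n + 1))
      (((fun F => MvPolynomial.rename Sum.inr F) '' (S' : Set (MvPolynomial (Fin (n + 1)) Qbar))) ∪
        Set.range (fun i : Fin (m + 1) => MvPolynomial.rename Sum.inr (p (PP q) i) -
          MvPolynomial.rename Sum.inr (p (PP q) i0) * MvPolynomial.X (Sum.inl i)))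
      ((S'.finite_toSet.image _).union (Set.finite_range _))
      (MvPolynomial.rename Sum.inr (G : MvPolynomial (Fin (n + 1)) Qbar) *
        MvPolynomial.rename Sum.inr (p (PP q) i0) * MvPolynomial.X (Sum.inr i1))
  choose C hC0 hC using huni
  set C' : ℝ := ∑ q : W, ∑ G : T', ∑ i0 : Fin (m + 1), ∑ i1 : Fin (n + 1), C q G i0 i1 with hC'
  have hCle : ∀ q G i0 i1, C q G i0 i1 ≤ C' := by
    intro q G i0 i1
    calc C q G i0 i1 ≤ ∑ i1, C q G i0 i1 :=
          Finset.single_le_sum (fun i _ => hC0 q G i0 i) (Finset.mem_univ i1)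
      _ ≤ ∑ i0, ∑ i1, C q G i0 i1 :=
          Finset.single_le_sum (f := fun i0 => ∑ i1, C q G i0 i1)
            (fun i _ => Finset.sum_nonneg fun j _ => hC0 q G i j) (Finset.mem_univ i0)
      _ ≤ ∑ G, ∑ i0, ∑ i1, C q G i0 i1 :=
          Finset.single_le_sum (f := fun G => ∑ i0, ∑ i1, C q G i0 i1)
            (fun G _ => Finset.sum_nonneg fun i _ => Finset.sum_nonneg fun j _ => hC0 q G i j)
            (Finset.mem_univ G)
      _ ≤ C' := Finset.single_le_sum (f := fun q => ∑ G, ∑ i0, ∑ i1, C q G i0 i1)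
            (fun q _ => Finset.sum_nonneg fun G _ => Finset.sum_nonneg fun i _ =>
              Finset.sum_nonneg fun j _ => hC0 q G i j) (Finset.mem_univ q)
  -- small representatives
  have hsmall : ∀ x : X, ∃ g : G, ht (g • x).1 ≤
      (n + 1) * (C' * (1 + (m + 1) * ht (π x).1)) := by
    intro x
    obtain ⟨q, hq⟩ := hcover x
    obtain ⟨hxS, G0, hG0, hxG0⟩ := (hmemX _).mp x.2
    obtain ⟨G1, hG1, hxG1⟩ : ∃ G1 ∈ T', MvPolynomial.eval x.1.rep G1 ≠ 0 := by
      by_contra hcon
      push Not at hcon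
      exact hxG0 (hT' _ hcon _ hG0)
    set r := (π x).1.rep with hr
    have hr0 : r ≠ 0 := (π x).1.rep_nonzero
    obtain ⟨i0, hi0⟩ := Function.ne_iff.mp hr0
    obtain ⟨i1, hi1⟩ := Function.ne_iff.mp x.1.rep_nonzero
    simp only [Pi.zero_apply] at hi0 hi1
    set Y0 : Fin (m + 1) → Qbar := (r i0)⁻¹ • r with hY0
    have hY0i0 : Y0 i0 = 1 := by simp [hY0, hi0]
    -- `p (x) = a • r`
    obtain ⟨a, ha⟩ := Projectivization.exists_smul_eq_mk_rep Qbar _ hq
    rw [← hform (PP q) x hq] at ha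
    have hpx : ∀ i, MvPolynomial.eval x.1.rep (p (PP q) i) =
        MvPolynomial.eval x.1.rep (p (PP q) i0) * Y0 i := by
      intro i
      have h1 := congrFun ha i
      have h2 := congrFun ha i0
      simp only [Pi.smul_apply, Units.smul_def, smul_eq_mul] at h1 h2
      have ha0 : (a : Qbar) ≠ 0 := a.ne_zero
      simp only [hY0, Pi.smul_apply, smul_eq_mul]
      apply mul_left_cancel₀ ha0
      rw [h1, ← mul_assoc, h2]
      show r i = r i0 * ((r i0)⁻¹ * r i)
      field_simp
    have hpi0 : MvPolynomial.eval x.1.rep (p (PP q) i0) ≠ 0 := by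
      intro h0
      apply hq
      funext i
      rw [hpx i, h0, zero_mul]
      rfl
    obtain ⟨x', hx'S, hx'g, hx'h⟩ := hC q ⟨G1, hG1⟩ i0 i1 Y0 ⟨x.1.rep, by
      rintro f (⟨F, hF, rfl⟩ | ⟨i, rfl⟩)
      · simp only [MvPolynomial.eval_rename]
        exact hxS F (hS'sub hF)
      · simp only [map_sub, map_mul, MvPolynomial.eval_rename, MvPolynomial.eval_X,
          Sum.elim_inl]
        have := hpx i
        rw [sub_eq_zero]
        exact this, by
      simp only [map_mul, MvPolynomial.eval_rename, MvPolynomial.eval_X, Sum.elim_inr]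
      exact mul_ne_zero (mul_ne_zero hxG1 hpi0) hi1⟩
    have hcomp : ∀ F : MvPolynomial (Fin (n + 1)) Qbar,
        MvPolynomial.eval (Sum.elim Y0 x') (MvPolynomial.rename Sum.inr F) =
          MvPolynomial.eval x' F := by
      intro F
      rw [MvPolynomial.eval_rename]
      rfl
    simp only [map_mul, hcomp, MvPolynomial.eval_X, Sum.elim_inr] at hx'g
    have hx'G : MvPolynomial.eval x' G1 ≠ 0 := fun h => hx'g (by rw [h]; ring)
    have hx'p : MvPolynomial.eval x' (p (PP q) i0) ≠ 0 := fun h => hx'g (by rw [h]; ring)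
    have hx'1 : x' i1 ≠ 0 := fun h => hx'g (by rw [h]; ring)
    have hx'0 : x' ≠ 0 := by
      rintro rfl
      exact hx'1 rfl
    have hx'pi : ∀ i, MvPolynomial.eval x' (p (PP q) i) =
        MvPolynomial.eval x' (p (PP q) i0) * Y0 i := by
      intro i
      have := hx'S _ (Or.inr ⟨i, rfl⟩)
      simp only [map_sub, map_mul, hcomp, MvPolynomial.eval_X, Sum.elim_inl, sub_eq_zero] at this
      exact this
    have hx'F : ∀ F ∈ S', MvPolynomial.eval x' F = 0 := by
      intro F hF
      have := hx'S _ (Or.inl ⟨F, hF, rfl⟩)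
      rwa [hcomp] at this
    -- the new point
    set P' : PSpace n := Projectivization.mk Qbar x' hx'0 with hP'
    obtain ⟨b, hb⟩ := Projectivization.exists_smul_eq_mk_rep Qbar x' hx'0
    rw [← hP'] at hb
    have hb' : P'.rep = (b : Qbar) • x' := hb.symm
    have hb0 : (b : Qbar) ≠ 0 := b.ne_zero
    have hP'X : P' ∈ X := by
      refine (hmemX _).mpr ⟨fun F hF => ?_, G1, hT'sub hG1, ?_⟩
      · obtain ⟨e, he⟩ := hST F (Or.inl hF)
        rw [hb', eval_smul he, hS' x' hx'F F hF, mul_zero]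
      · obtain ⟨e, he⟩ := hST G1 (Or.inr (hT'sub hG1))
        rw [hb', eval_smul he]
        exact mul_ne_zero (pow_ne_zero _ hb0) hx'G
    have hpP' : ∀ i, MvPolynomial.eval P'.rep (p (PP q) i) =
        (b : Qbar) ^ d (PP q) * MvPolynomial.eval x' (p (PP q) i) := by
      intro i
      rw [hb', eval_smul (hhom (PP q) i)]
    have hP'ne : (fun j => MvPolynomial.eval P'.rep (p (PP q) j)) ≠ 0 := by
      intro h
      have h2 := congrFun h i0
      simp only [Pi.zero_apply] at h2
      rw [hpP'] at h2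
      exact mul_ne_zero (pow_ne_zero _ hb0) hx'p h2
    have hπP' : π ⟨P', hP'X⟩ = π x := by
      apply Subtype.ext
      rw [hform (PP q) ⟨P', hP'X⟩ hP'ne]
      have h1 : (π x).1 = Projectivization.mk Qbar r hr0 := ((π x).1.mk_rep).symm
      rw [h1, Projectivization.mk_eq_mk_iff']
      refine ⟨(b : Qbar) ^ d (PP q) * MvPolynomial.eval x' (p (PP q) i0) * (r i0)⁻¹, ?_⟩
      funext i
      simp only [Pi.smul_apply, smul_eq_mul]
      rw [hpP', hx'pi i]
      simp only [hY0, Pi.smul_apply, smul_eq_mul]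
      ring
    obtain ⟨g, hg⟩ := (hfib x ⟨P', hP'X⟩).mp hπP'.symm
    refine ⟨g, ?_⟩
    rw [hg]
    show ht P' ≤ _
    rw [hP', ht_mk]
    have hYsum : ∑ a, h1 (Y0 a) ≤ (m + 1) * ht (π x).1 := by
      have h1 : ∀ a ∈ Finset.univ, h1 (Y0 a) ≤ ht (π x).1 := by
        intro a _
        have h2 := aff_le_of_eq_one Y0 i0 hY0i0 a
        have h3 : absLogHeight Y0 = absLogHeight r := absLogHeight_smul r (inv_ne_zero hi0)
        rw [h3] at h2
        exact h2
      have h4 := Finset.sum_le_card_nsmul _ _ _ h1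
      simpa using h4
    have hb1 : ∀ i ∈ Finset.univ, absLogHeight ![1, x' i] ≤
        C' * (1 + (m + 1) * ht (π x).1) := by
      intro i _
      have h5 := hx'h i
      have h6 : 0 ≤ ∑ a, h1 (Y0 a) := Finset.sum_nonneg fun a _ => h1_nonneg _
      have h7 := hC0 q ⟨G1, hG1⟩ i0 i1
      have h8 := hCle q ⟨G1, hG1⟩ i0 i1
      calc absLogHeight ![1, x' i] ≤ C q ⟨G1, hG1⟩ i0 i1 * (1 + ∑ a, h1 (Y0 a)) := h5
        _ ≤ C' * (1 + ∑ a, h1 (Y0 a)) := mul_le_mul_of_nonneg_right h8 (by positivity)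
        _ ≤ C' * (1 + (m + 1) * ht (π x).1) :=
          mul_le_mul_of_nonneg_left (by linarith) (h7.trans h8)
    refine (absLogHeight_le_sum x').trans ?_
    have h9 := Finset.sum_le_card_nsmul _ _ _ hb1
    simpa using h9
  have hC'0 : 0 ≤ C' := Finset.sum_nonneg fun q _ => Finset.sum_nonneg fun G _ =>
    Finset.sum_nonneg fun i _ => Finset.sum_nonneg fun j _ => hC0 q G i j
  refine ⟨1 / D, (n + 1) * C' * (m + 1) + 1, A' / D, (n + 1) * C', by positivity, by positivity,
    fun x => ⟨?_, ?_⟩⟩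
  · apply le_ciInf
    intro g
    have h1 := hup (g • x)
    have h2 : π (g • x) = π x := ((hfib x (g • x)).mpr ⟨g, rfl⟩).symm
    rw [h2] at h1
    rw [div_mul_eq_mul_div, one_mul, ← sub_div, div_le_iff₀ hDpos]
    linarith
  · obtain ⟨g, hg⟩ := hsmall x
    have hbdd : BddBelow (Set.range fun g : G => ht (g • x).1) :=
      ⟨0, by rintro _ ⟨g, rfl⟩; exact ht_nonneg _⟩
    refine (ciInf_le hbdd g).trans (hg.trans ?_)
    have := ht_nonneg (π x).1
    nlinarith

end Pool.Agent.Results.MP_216eb3_nt.OrbitHeights
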